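import Pool.Agent.J6H68.Nut.Stm

/-!
Module R1: from a `ρ`-regular nut graph on `n` vertices, `n - ρ` odd and at least `3`, to an
`n`-regular nut graph on `2 n - ρ` vertices.
-/

set_option autoImplicit false
set_option linter.unusedSectionVars false

namespace Pool.Agent.J6H75.Nut

open Finset Pool.Agent.TH296.Nut

section

variable {V : Type} [Fintype V] [DecidableEq V]

/-- pairwise disjoint non-adjacent pairs -/
structure PP (W : V → V → ℝ) (k : ℕ) (f g : Fin k → V) : Prop where
  fi : Function.Injective f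
  gi : Function.Injective g
  ne : ∀ i j, f i ≠ g j
  W0 : ∀ i, W (f i) (g i) = 0

theorem PP.cons {W : V → V → ℝ} {k : ℕ} {f g : Fin k → V} (h : PP W k f g) {c d : V}
    (hcf : ∀ i, f i ≠ c) (hcg : ∀ i, g i ≠ c) (hdf : ∀ i, f i ≠ d) (hdg : ∀ i, g i ≠ d)
    (hcd : c ≠ d) (hW : W c d = 0) :
    PP W (k + 1) (Fin.cons c f : Fin (k + 1) → V) (Fin.cons d g : Fin (k + 1) → V) := by
  refine ⟨?_, ?_, ?_, ?_⟩
  · rw [Fin.cons_injective_iff]
    refine ⟨?_, h.fi⟩
    rintro ⟨i, hi⟩
    exact hcf i hi
  · rw [Fin.cons_injective_iff]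
    refine ⟨?_, h.gi⟩
    rintro ⟨i, hi⟩
    exact hdg i hi
  · intro i j
    refine Fin.cases ?_ (fun i => ?_) i
    · refine Fin.cases ?_ (fun j => ?_) j
      · simpa using hcd
      · simpa using (hcg j).symm
    · refine Fin.cases ?_ (fun j => ?_) j
      · simpa using hdf i
      · simpa using h.ne i j
  · intro i
    refine Fin.cases ?_ (fun i => ?_) i
    · simpa using hW
    · simpa using h.W0 i

/-- the non-neighbours -/
noncomputable def nn (W : V → V → ℝ) (a : V) : Finset V := univ.filter fun b => W a b = 0 ∧ b ≠ a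

theorem card_nn {ρ : ℕ} {W : V → V → ℝ} {x : V → ℝ} (h : NW V ρ W x) (a : V) :
    (nn W a).card + ρ + 1 = Fintype.card V := by
  have h1 : ∑ b, (1 - W a b - if b = a then 1 else 0) = ((nn W a).card : ℝ) := by
    unfold nn
    rw [Finset.card_filter]
    push_cast
    refine Finset.sum_congr rfl fun b _ => ?_
    by_cases hb : b = a
    · subst hb
      simp [h.diag b]
    · rcases h.zo a b with h0 | h0 <;> simp [h0, hb]
  rw [Finset.sum_sub_distrib, Finset.sum_sub_distrib, h.deg a] at h1
  simp only [Finset.sum_const, Finset.card_univ, nsmul_eq_mul, mul_one, Finset.sum_ite_eq',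
    Finset.mem_univ, if_true] at h1
  have h2 : ((nn W a).card : ℝ) + ρ + 1 = Fintype.card V := by linarith
  exact_mod_cast h2

theorem exists_triple {ρ : ℕ} {W : V → V → ℝ} {x : V → ℝ} (h : NW V ρ W x) (hρ : 1 ≤ ρ)
    (hn : ρ + 3 ≤ Fintype.card V) :
    ∃ a b b', b ∈ nn W a ∧ b' ∈ nn W a ∧ x b ≠ x b' := by
  by_contra hcon
  push Not at hcon
  have : Nonempty V := Fintype.card_pos_iff.1 (by omega)
  obtain ⟨a, ha⟩ := Finite.exists_min (fun v => |x v|)
  have hc := card_nn h a
  obtain ⟨b0, hb0⟩ : (nn W a).Nonempty := Finset.card_pos.1 (by omega)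
  have h0 : ∑ b, x b = 0 := sum0 h hρ
  have h1 : x a + ∑ b ∈ nn W a, x b = 0 := by
    have e1 : ∑ b ∈ nn W a, x b = ∑ b, (x b - W a b * x b - if b = a then x b else 0) := by
      unfold nn
      rw [Finset.sum_filter]
      refine Finset.sum_congr rfl fun b _ => ?_
      by_cases hb : b = a
      · subst hb
        simp [h.diag b]
      · rcases h.zo a b with h0 | h0 <;> simp [h0, hb]
    rw [e1, Finset.sum_sub_distrib, Finset.sum_sub_distrib, h0, h.ker a]
    simp
  have h2 : ∑ b ∈ nn W a, x b = (nn W a).card * x b0 := by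
    rw [Finset.sum_congr rfl (fun b hb => hcon a b b0 hb hb0), Finset.sum_const, nsmul_eq_mul]
  have h3 : x a = - ((nn W a).card * x b0) := by linarith
  have h4 : |x a| = (nn W a).card * |x b0| := by
    rw [h3, abs_neg, abs_mul, Nat.abs_cast]
  have h5 : (2 : ℝ) ≤ (nn W a).card := by
    have : 2 ≤ (nn W a).card := by omega
    exact_mod_cast this
  have h6 : |x a| ≤ |x b0| := ha b0
  have h7 : 0 < |x a| := abs_pos.2 (h.nz a)
  nlinarith

theorem exists_pairs {ρ : ℕ} {W : V → V → ℝ} {x : V → ℝ} (h : NW V ρ W x) (F : Finset V)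
    (hF : F.card ≤ 3) (q : ℕ) (hn : Fintype.card V = ρ + (2 * q + 1)) (k : ℕ) (hk : k + 1 ≤ q) :
    ∃ f g : Fin k → V, PP W k f g ∧ (∀ i, f i ∉ F) ∧ ∀ i, g i ∉ F := by
  induction k with
  | zero =>
    exact ⟨Fin.elim0, Fin.elim0, ⟨fun i => i.elim0, fun i => i.elim0, fun i => i.elim0,
      fun i => i.elim0⟩, fun i => i.elim0, fun i => i.elim0⟩
  | succ k ih =>
    obtain ⟨f, g, hp, hf, hg⟩ := ih (by omega)
    set U : Finset V := F ∪ (univ.image f ∪ univ.image g) with hU
    have hUc : U.card ≤ 2 * q - 1 := by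
      have e1 : (univ.image f).card ≤ k := by
        simpa using (Finset.card_image_le (s := (univ : Finset (Fin k))) (f := f))
      have e2 : (univ.image g).card ≤ k := by
        simpa using (Finset.card_image_le (s := (univ : Finset (Fin k))) (f := g))
      have e3 := Finset.card_union_le (univ.image f) (univ.image g)
      have e4 := Finset.card_union_le F (univ.image f ∪ univ.image g)
      rw [← hU] at e4
      omega
    obtain ⟨c, hc⟩ : ∃ c, c ∉ U := by
      by_contra hcon
      push Not at hcon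
      have : (univ : Finset V).card ≤ U.card := Finset.card_le_card fun z _ => hcon z
      rw [Finset.card_univ] at this
      omega
    obtain ⟨d, hd, hdU⟩ : ∃ d ∈ nn W c, d ∉ U := by
      by_contra hcon
      push Not at hcon
      have : (nn W c).card ≤ U.card := Finset.card_le_card fun z hz => hcon z hz
      have := card_nn h c
      omega
    simp only [hU, Finset.mem_union, Finset.mem_image, Finset.mem_univ, true_and, not_or,
      not_exists] at hc hdU
    simp only [nn, Finset.mem_filter, Finset.mem_univ, true_and] at hd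
    refine ⟨_, _, hp.cons hc.2.1 hc.2.2 hdU.2.1 hdU.2.2 (Ne.symm hd.2) hd.1, ?_, ?_⟩
    · intro i
      refine Fin.cases ?_ (fun i => ?_) i
      · simpa using hc.1
      · simpa using hf i
    · intro i
      refine Fin.cases ?_ (fun i => ?_) i
      · simpa using hdU.1
      · simpa using hg i

theorem exists_matching {ρ : ℕ} {W : V → V → ℝ} {x : V → ℝ} (h : NW V ρ W x) (hρ : 1 ≤ ρ)
    (q : ℕ) (hq : 1 ≤ q) (hn : Fintype.card V = ρ + (2 * q + 1)) :
    ∃ f g : Fin q → V, PP W q f g ∧ ∑ i, (x (f i) + x (g i)) ≠ 0 := by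
  obtain ⟨a, b, b', hb, hb', hx⟩ := exists_triple h hρ (by omega)
  obtain ⟨k, rfl⟩ : ∃ k, q = k + 1 := ⟨q - 1, by omega⟩
  obtain ⟨f, g, hp, hf, hg⟩ := exists_pairs h {a, b, b'} Finset.card_le_three (k + 1) hn k le_rfl
  simp only [nn, Finset.mem_filter, Finset.mem_univ, true_and] at hb hb'
  simp only [Finset.mem_insert, Finset.mem_singleton, not_or] at hf hg
  have p1 := hp.cons (c := a) (d := b) (fun i => (hf i).1) (fun i => (hg i).1)
    (fun i => (hf i).2.1) (fun i => (hg i).2.1) (Ne.symm hb.2) hb.1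
  have p2 := hp.cons (c := a) (d := b') (fun i => (hf i).1) (fun i => (hg i).1)
    (fun i => (hf i).2.2) (fun i => (hg i).2.2) (Ne.symm hb'.2) hb'.1
  by_cases hs : ∑ i, (x ((Fin.cons a f : Fin (k + 1) → V) i) +
      x ((Fin.cons b g : Fin (k + 1) → V) i)) = 0
  · refine ⟨_, _, p2, ?_⟩
    intro hs2
    rw [Fin.sum_univ_succ] at hs hs2
    simp only [Fin.cons_zero, Fin.cons_succ] at hs hs2
    exact hx (by linarith)
  · exact ⟨_, _, p1, hs⟩

/-- matching matrix -/
noncomputable def mm {q : ℕ} (v : Fin q × Bool → V) (a b : V) : ℝ :=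
  ∑ p, if a = v p ∧ b = v (p.1, !p.2) then 1 else 0

theorem mm_sum {q : ℕ} (v : Fin q × Bool → V) (a : V) (y : V → ℝ) :
    ∑ b, mm v a b * y b = ∑ p, if a = v p then y (v (p.1, !p.2)) else 0 := by
  unfold mm
  simp only [Finset.sum_mul]
  rw [Finset.sum_comm]
  refine Finset.sum_congr rfl fun p _ => ?_
  by_cases ha : a = v p
  · simp [ha]
  · simp [ha]

theorem mm_cases {q : ℕ} {v : Fin q × Bool → V} (hv : Function.Injective v) (a b : V) :
    (mm v a b = 0 ∧ ∀ p, ¬ (a = v p ∧ b = v (p.1, !p.2))) ∨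
    (mm v a b = 1 ∧ ∃ p, a = v p ∧ b = v (p.1, !p.2)) := by
  unfold mm
  by_cases h : ∃ p, a = v p ∧ b = v (p.1, !p.2)
  · right
    refine ⟨?_, h⟩
    obtain ⟨p, hp⟩ := h
    rw [Finset.sum_eq_single p]
    · rw [if_pos hp]
    · intro p' _ hne
      rw [if_neg]
      rintro ⟨h1, _⟩
      exact hne (hv (h1.symm.trans hp.1))
    · intro h0
      exact absurd (Finset.mem_univ _) h0
  · left
    refine ⟨?_, fun p hp => h ⟨p, hp⟩⟩
    refine Finset.sum_eq_zero fun p _ => ?_
    rw [if_neg]
    exact fun hp => h ⟨p, hp⟩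

theorem mm_symm {q : ℕ} (v : Fin q × Bool → V) (a b : V) : mm v a b = mm v b a := by
  unfold mm
  refine Finset.sum_bij' (fun p _ => (p.1, !p.2)) (fun p _ => (p.1, !p.2)) (by simp) (by simp)
    (by simp) (by simp) ?_
  rintro ⟨p, β⟩ _
  simp only [Bool.not_not]
  congr 1
  rw [and_comm]

/-- weights of the new graph -/
noncomputable def rw1 {q : ℕ} (W : V → V → ℝ) (v : Fin q × Bool → V) :
    (V ⊕ (Unit ⊕ (Fin q × Bool))) → (V ⊕ (Unit ⊕ (Fin q × Bool))) → ℝ
  | .inl a, .inl b => W a b + mm v a b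
  | .inl _, .inr (.inl _) => 1
  | .inl a, .inr (.inr p) => 1 - if a = v p then 1 else 0
  | .inr (.inl _), .inl _ => 1
  | .inr (.inr p), .inl a => 1 - if a = v p then 1 else 0
  | .inr (.inl _), .inr (.inl _) => 0
  | .inr (.inl _), .inr (.inr _) => 0
  | .inr (.inr _), .inr (.inl _) => 0
  | .inr (.inr p), .inr (.inr p') => if p' = (p.1, !p.2) then 1 else 0

/-- kernel vector of the new graph -/
noncomputable def rx1 {q : ℕ} (x : V → ℝ) (v : Fin q × Bool → V) :
    (V ⊕ (Unit ⊕ (Fin q × Bool))) → ℝ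
  | .inl a => x a
  | .inr (.inl _) => - ∑ p, x (v p)
  | .inr (.inr p) => x (v (p.1, !p.2))

theorem sum_flip {q : ℕ} (F : Fin q × Bool → ℝ) :
    ∑ p : Fin q × Bool, F (p.1, !p.2) = ∑ p, F p := by
  refine Finset.sum_bij' (fun p _ => (p.1, !p.2)) (fun p _ => (p.1, !p.2)) (by simp) (by simp)
    (by simp) (by simp) (by simp)

theorem r1_nw {ρ q : ℕ} {W : V → V → ℝ} {x : V → ℝ} (h : NW V ρ W x) (hρ : 1 ≤ ρ)
    (hn : Fintype.card V = ρ + (2 * q + 1)) {v : Fin q × Bool → V} (hv : Function.Injective v)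
    (hW : ∀ p, W (v p) (v (p.1, !p.2)) = 0) (hs : ∑ p, x (v p) ≠ 0) :
    NW (V ⊕ (Unit ⊕ (Fin q × Bool))) (Fintype.card V) (rw1 W v) (rx1 x v) := by
  have h0 : ∑ b, x b = 0 := sum0 h hρ
  have hV : ∀ (y : (V ⊕ (Unit ⊕ (Fin q × Bool))) → ℝ) (a : V),
      ∑ z, rw1 W v (.inl a) z * y z = ∑ b, W a b * y (.inl b) +
        (∑ p, if a = v p then y (.inl (v (p.1, !p.2))) else 0) + (y (.inr (.inl ())) +
        ∑ p, y (.inr (.inr p)) - ∑ p, if a = v p then y (.inr (.inr p)) else 0) := by
    intro y a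
    rw [Fintype.sum_sum_type, Fintype.sum_sum_type]
    simp only [rw1, add_mul, sub_mul, one_mul, ite_mul, zero_mul, Finset.sum_add_distrib,
      Finset.sum_sub_distrib, Finset.univ_unique, Finset.sum_singleton]
    rw [mm_sum v a (fun b => y (.inl b))]
    ring
  have hN : ∀ (y : (V ⊕ (Unit ⊕ (Fin q × Bool))) → ℝ),
      ∑ z, rw1 W v (.inr (.inl ())) z * y z = ∑ b, y (.inl b) := by
    intro y
    rw [Fintype.sum_sum_type, Fintype.sum_sum_type]
    simp only [rw1, one_mul, zero_mul, Finset.sum_const_zero, add_zero]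
  have hS : ∀ (y : (V ⊕ (Unit ⊕ (Fin q × Bool))) → ℝ) (p : Fin q × Bool),
      ∑ z, rw1 W v (.inr (.inr p)) z * y z = ∑ b, y (.inl b) - y (.inl (v p)) +
        y (.inr (.inr (p.1, !p.2))) := by
    intro y p
    rw [Fintype.sum_sum_type, Fintype.sum_sum_type]
    simp only [rw1, one_mul, zero_mul, Finset.sum_const_zero, zero_add, sub_mul, ite_mul,
      Finset.sum_sub_distrib, Finset.sum_ite_eq', Finset.mem_univ, if_true]
  refine ⟨?_, ?_, ?_, ?_, ?_, ?_, ?_⟩
  · rintro (a | (_ | p)) (b | (_ | p')) <;> simp only [rw1]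
    · rcases mm_cases hv a b with ⟨h1, _⟩ | ⟨h1, p, rfl, rfl⟩
      · rw [h1, add_zero]
        exact h.zo a b
      · rw [h1, hW, zero_add]
        exact Or.inr rfl
    all_goals first
      | exact Or.inl trivial
      | exact Or.inr trivial
      | exact Or.inl rfl
      | exact Or.inr rfl
      | (split_ifs <;> simp)
  · rintro (a | (_ | p)) (b | (_ | p')) <;> simp only [rw1]
    · rw [h.symm a b, mm_symm v a b]
    · congr 1
      obtain ⟨i, β⟩ := p
      obtain ⟨j, γ⟩ := p'
      cases β <;> cases γ <;> simp [eq_comm]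
  · rintro (a | (_ | p)) <;> simp only [rw1]
    · rcases mm_cases hv a a with ⟨h1, _⟩ | ⟨h1, p, e1, e2⟩
      · rw [h1, h.diag, add_zero]
      · exfalso
        have := hv (e1.symm.trans e2)
        have := congrArg Prod.snd this
        cases hp : p.2 <;> simp [hp] at this
    · rw [if_neg]
      intro e
      have := congrArg Prod.snd e
      cases hp : p.2 <;> simp [hp] at this
  · have hcard : (Finset.univ : Finset (Fin q × Bool)).card = 2 * q := by
      simp [Finset.card_univ, mul_comm]
    rintro (a | (_ | p))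
    · have := hV (fun _ => 1) a
      simp only [mul_one] at this
      rw [this, h.deg a, hn]
      simp only [Finset.sum_const, hcard, nsmul_eq_mul, mul_one]
      push_cast
      ring
    · have := hN (fun _ => 1)
      simp only [mul_one] at this
      rw [this]
      simp
    · have := hS (fun _ => 1) p
      simp only [mul_one] at this
      rw [this]
      simp
  · rintro (a | (_ | p)) <;> simp only [rx1]
    · exact h.nz a
    · exact neg_ne_zero.2 hs
    · exact h.nz _
  · rintro (a | (_ | p))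
    · rw [hV]
      simp only [rx1]
      rw [h.ker a, sum_flip (fun p : Fin q × Bool => x (v p))]
      ring
    · rw [hN]
      exact h0
    · rw [hS]
      simp only [rx1, Bool.not_not]
      rw [h0]
      ring
  · intro y hy
    have e0 : ∑ b, y (.inl b) = 0 := by
      rw [← hN y]
      exact hy _
    have e1 : ∀ p : Fin q × Bool, y (.inr (.inr p)) = y (.inl (v (p.1, !p.2))) := by
      intro p
      have := hy (.inr (.inr (p.1, !p.2)))
      rw [hS, e0] at this
      simp only [Bool.not_not] at this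
      linarith
    set τ : ℝ := y (.inr (.inl ())) + ∑ p, y (.inr (.inr p)) with hτ
    have e2 : ∀ a, ∑ b, W a b * y (.inl b) + τ = 0 := by
      intro a
      have := hy (.inl a)
      rw [hV] at this
      have e3 : (∑ p, if a = v p then y (.inl (v (p.1, !p.2))) else 0) =
          ∑ p, if a = v p then y (.inr (.inr p)) else 0 := by
        refine Finset.sum_congr rfl fun p _ => ?_
        rw [e1 p]
      rw [e3] at this
      linarith
    have e4 : τ = 0 := by
      have : ∑ a, (∑ b, W a b * y (.inl b) + τ) = 0 := Finset.sum_eq_zero fun a _ => e2 a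
      rw [Finset.sum_add_distrib, tot h (fun b => y (.inl b)), e0, mul_zero, zero_add,
        Finset.sum_const, Finset.card_univ, nsmul_eq_mul] at this
      rcases mul_eq_zero.1 this with h1 | h1
      · exfalso
        have h2 : Fintype.card V = 0 := by exact_mod_cast h1
        omega
      · exact h1
    obtain ⟨c, hc⟩ := h.uniq (fun b => y (.inl b)) (fun a => by
      have := e2 a
      rw [e4, add_zero] at this
      exact this)
    refine ⟨c, ?_⟩
    rintro (a | (_ | p)) <;> simp only [rx1]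
    · exact hc a
    · have e5 : ∑ p, y (.inr (.inr p)) = c * ∑ p, x (v p) := by
        rw [Finset.mul_sum, ← sum_flip (fun p : Fin q × Bool => c * x (v p))]
        refine Finset.sum_congr rfl fun p _ => ?_
        rw [e1 p]
        exact hc _
      have : y (.inr (.inl ())) = τ - ∑ p, y (.inr (.inr p)) := by rw [hτ]; ring
      rw [this, e4, e5]
      ring
    · rw [e1 p]
      exact hc _

end

theorem st_R1 : Pool.Agent.J6H68.Nut.StR1 := by
  classical
  rintro ρ n ⟨V, iV, W, x, h, rfl⟩ hρ hn hodd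
  obtain ⟨q, hq⟩ : ∃ q, Fintype.card V - ρ = 2 * q + 1 := ⟨(Fintype.card V - ρ) / 2, by omega⟩
  have hn' : Fintype.card V = ρ + (2 * q + 1) := by omega
  obtain ⟨f, g, hp, hs⟩ := exists_matching h hρ q (by omega) hn'
  let v : Fin q × Bool → V := fun p => if p.2 then g p.1 else f p.1
  have hv : Function.Injective v := by
    rintro ⟨i, β⟩ ⟨j, γ⟩ hij
    cases β <;> cases γ <;> simp only [v, Bool.false_eq_true, if_false, if_true] at hij
    · rw [hp.fi hij]
    · exact absurd hij (hp.ne i j)
    · exact absurd hij.symm (hp.ne j i)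
    · rw [hp.gi hij]
  have hW : ∀ p, W (v p) (v (p.1, !p.2)) = 0 := by
    rintro ⟨i, β⟩
    cases β <;> simp only [v, Bool.not_false, Bool.not_true, Bool.false_eq_true, if_false, if_true]
    · exact hp.W0 i
    · rw [h.symm]
      exact hp.W0 i
  have hs' : ∑ p, x (v p) ≠ 0 := by
    rw [Fintype.sum_prod_type]
    simp only [Fintype.sum_bool, v, Bool.false_eq_true, if_false, if_true]
    intro h1
    apply hs
    rw [← h1]
    exact Finset.sum_congr rfl fun i _ => add_comm _ _
  refine ⟨_, inferInstance, _, _, r1_nw h hρ hn' hv hW hs', ?_⟩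
  rw [Fintype.card_sum, Fintype.card_sum, Fintype.card_prod, Fintype.card_fin]
  simp only [Fintype.card_unit, Fintype.card_bool]
  omega

end Pool.Agent.J6H75.Nut
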